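import Pool.Agent.K9h78.RotSnark.Main

/-!
# There are infinitely many rotation snarks

`IsRotationTSnark i G` (file `Pool/Agent/N366/RS/Stm.lean`): `G` is a snark which has a spanning tree
`T_i`, drawn in the plane as usual with its leaves numbered clockwise starting at the boundary of
one of the three branches at the centre, such that the rotation of the leaves by one third maps edges
between leaves to edges.
-/

set_option autoImplicit false

namespace Pool.Agent.Results.MP_3688cb_co.InfinitelyMany

open Pool.Agent.N366.RS

/-- `G` is a rotation snark: a rotation `T_i`-snark for some `i ≥ 2`. -/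
def IsRotationSnark {V : Type} (G : SimpleGraph V) : Prop := ∃ i : ℕ, IsRotationTSnark i G

/-- (1) For every `i ≥ 6` there is a rotation `T_i`-snark. (2) There is an infinite sequence of finite,
pairwise non-isomorphic rotation snarks. -/
theorem result :
    (∀ i : ℕ, 6 ≤ i → ∃ (V : Type) (_ : Finite V) (G : SimpleGraph V), IsRotationTSnark i G) ∧
    ∃ (V : ℕ → Type) (G : ∀ n, SimpleGraph (V n)), (∀ n, Finite (V n) ∧ IsRotationSnark (G n)) ∧
      ∀ m n, m ≠ n → ¬ Nonempty (G m ≃g G n) := by
  refine ⟨fun i hi => ?_, fun n => Node (n + 3 + 3),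
    fun n => Pool.Agent.K9h78.RotSnark.G (n + 3), fun n => ⟨inferInstance, n + 3 + 3,
      Pool.Agent.K9h78.RotSnark.isRotation (by omega)⟩, ?_⟩
  · obtain ⟨k, rfl⟩ : ∃ k, i = k + 3 := ⟨i - 3, by omega⟩
    exact ⟨Node (k + 3), inferInstance, Pool.Agent.K9h78.RotSnark.G k,
      Pool.Agent.K9h78.RotSnark.isRotation (by omega)⟩
  · -- the numbers of vertices are different
    have key : ∀ m n : ℕ, m < n → ¬ Nonempty (Node m ≃ Node n) := by
      rintro m n hmn ⟨e⟩
      have h1 : Nat.card (Node m) = Nat.card (Node n) := Nat.card_congr e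
      let f : Node m → Node n := fun p => ⟨p.1, le_trans p.2.1 hmn.le, p.2.2⟩
      have hf : Function.Injective f := fun p q h =>
        Subtype.ext (congrArg (fun x : Node n => x.1) h)
      have hs : ¬ Function.Surjective f := by
        intro hs
        obtain ⟨p, hp⟩ := hs ⟨(n, 0), le_rfl, width_pos n⟩
        have h2 := congrArg (fun x : Node n => x.1.1) hp
        have h3 : p.1.1 = n := h2
        have := p.2.1
        omega
      apply hs
      haveI : Fintype (Node m) := Fintype.ofFinite _
      haveI : Fintype (Node n) := Fintype.ofFinite _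
      rw [Nat.card_eq_fintype_card, Nat.card_eq_fintype_card] at h1
      exact ((Fintype.bijective_iff_injective_and_card f).2 ⟨hf, h1⟩).2
    rintro m n hmn ⟨e⟩
    rcases Nat.lt_or_gt_of_ne hmn with h | h
    · exact key _ _ (by omega) ⟨e.toEquiv⟩
    · exact key _ _ (by omega) ⟨e.toEquiv.symm⟩

end Pool.Agent.Results.MP_3688cb_co.InfinitelyMany
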